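import Pool.Agent.Helper220.MG.Final

set_option autoImplicit false

namespace Pool.Agent.Results.MP_0203cc_gt.MengerConjectureFails

open Pool.MengerAx

/-- Menger's conjecture on the axiomatic characterization of dimension fails: for every `n ≥ 5`
either small inductive dimension violates one of the axioms (M1)-(M4) on the class of subspaces
of `ℝ^n`, or there is another function satisfying them. In particular the conjecture (for all
`n ≥ 3`) is false. -/
theorem result : (∀ n : ℕ, 5 ≤ n → ¬ Conjecture n) ∧ ¬ ∀ n : ℕ, 3 ≤ n → Conjecture n :=
  ⟨fun _ hn => Pool.Agent.Helper220.MG.not_conjecture hn,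
    fun h => Pool.Agent.Helper220.MG.not_conjecture (le_refl 5) (h 5 (by norm_num))⟩

end Pool.Agent.Results.MP_0203cc_gt.MengerConjectureFails
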